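import Pool.Agent.H71.SG.Defs

/-!
MP_5607ba_lc, theorem SG, module SJ: structures with isomorphic codes are isomorphic.
-/

set_option autoImplicit false

open Set

namespace Pool.Agent.SG

namespace SJ

variable {D : Type}

lemma of_zero {o : D} {y : Gst D} {v : Vx} (h : (uV o y v).1 = 0) : ∃ i, v = Sum.inl i := by
  rcases v with i | l | q
  · exact ⟨i, rfl⟩
  · simp only [uV] at h
    split_ifs at h
  · simp only [uV] at h
    split_ifs at h

lemma of_two {o : D} {y : Gst D} {v : Vx} (h : (uV o y v).1 = 2) :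
    ∃ m, v = Sum.inr (Sum.inl m) ∧ y m ≠ o ∧ (uV o y v).2 = y m := by
  rcases v with i | l | q
  · simp [uV] at h
  · simp only [uV] at h
    split_ifs at h with h1
    · simp at h
    · refine ⟨l, rfl, h1, ?_⟩
      simp only [uV]
      rw [if_neg h1]
  · simp only [uV] at h
    split_ifs at h <;> simp at h

lemma of_place {o : D} {y : Gst D} {v : Vx} {p : ℕ} (h : (uV o y v).1 = p + 3) :
    ∃ m, v = Sum.inr (Sum.inr (m, p)) ∧ y m ≠ o ∧ p < m.length := by
  rcases v with i | l | q
  · simp [uV] at h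
  · simp only [uV] at h
    split_ifs at h with h1
    · simp at h
    · simp only at h
      omega
  · simp only [uV] at h
    split_ifs at h with h1
    · simp only at h
      have h2 : q.2 = p := by omega
      refine ⟨q.1, ?_, h1.1, h2 ▸ h1.2⟩
      rw [← h2]
    · simp at h

/-- the tuple vertices are respected -/
lemma key {o : D} {x y : Gst D} (H : Vx ≃ Vx) (g : ℕ → ℕ)
    (hg : ∀ i, H (Sum.inl i) = Sum.inl (g i))
    (hc : ∀ u v, cV o y (H u) (H v) = cV o x u v) (hu : ∀ v, uV o y (H v) = uV o x v)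
    (l : List ℕ) (hl : x l ≠ o) : y (l.map g) = x l := by
  have h1 : uV o x (Sum.inr (Sum.inl l)) = (2, x l) := by
    simp only [uV]
    rw [if_neg hl]
  obtain ⟨m, hm, hm1, hm2⟩ := of_two (o := o) (y := y) (v := H (Sum.inr (Sum.inl l))) (by
    rw [hu, h1])
  rw [hu, h1] at hm2
  simp only at hm2
  have h2 : ∀ p, p < l.length → p < m.length ∧
      H (Sum.inr (Sum.inr (l, p))) = Sum.inr (Sum.inr (m, p)) := by
    intro p hp
    have h3 : uV o x (Sum.inr (Sum.inr (l, p))) = (p + 3, o) := by
      simp only [uV]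
      rw [if_pos ⟨hl, hp⟩]
    obtain ⟨m', h4, h5, h6⟩ := of_place (o := o) (y := y)
      (v := H (Sum.inr (Sum.inr (l, p)))) (p := p) (by rw [hu, h3])
    have h7 := hc (Sum.inr (Sum.inl l)) (Sum.inr (Sum.inr (l, p)))
    rw [hm, h4] at h7
    simp only [cV] at h7
    rw [if_pos (⟨rfl, hl, hp⟩ : l = l ∧ x l ≠ o ∧ p < l.length)] at h7
    split_ifs at h7 with h8
    · obtain ⟨rfl, -, -⟩ := h8
      exact ⟨h6, h4⟩
    · simp at h7
  have h3 : ∀ p, p < m.length → p < l.length := by
    intro p hp
    have h4 : uV o y (Sum.inr (Sum.inr (m, p))) = (p + 3, o) := by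
      simp only [uV]
      rw [if_pos ⟨hm1, hp⟩]
    have h5 := hu (H.symm (Sum.inr (Sum.inr (m, p))))
    rw [Equiv.apply_symm_apply, h4] at h5
    obtain ⟨l', h6, h7, h8⟩ := of_place (o := o) (y := x)
      (v := H.symm (Sum.inr (Sum.inr (m, p)))) (p := p) (by rw [← h5])
    have h9 := hc (Sum.inr (Sum.inl l)) (H.symm (Sum.inr (Sum.inr (m, p))))
    rw [Equiv.apply_symm_apply, hm, h6] at h9
    simp only [cV] at h9
    rw [if_pos (⟨rfl, hm1, hp⟩ : m = m ∧ y m ≠ o ∧ p < m.length)] at h9
    split_ifs at h9 with h10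
    · exact h10.2.2
    · simp at h9
  have h4 : ∀ p, p < l.length → m[p]? = (l[p]?).map g := by
    intro p hp
    have h5 := hc (Sum.inr (Sum.inr (l, p))) (Sum.inl (l[p]))
    rw [(h2 p hp).2, hg] at h5
    simp only [cV] at h5
    have h6 : l[p]? = some l[p] := List.getElem?_eq_getElem hp
    rw [if_pos (⟨hl, h6⟩ : x l ≠ o ∧ l[p]? = some l[p])] at h5
    split_ifs at h5 with h7
    · rw [h6, h7.2]
      rfl
    · simp at h5
  have h5 : m.length = l.length := by
    apply le_antisymm
    · by_contra hcon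
      exact lt_irrefl _ (h3 l.length (not_le.1 hcon))
    · by_contra hcon
      exact lt_irrefl _ (h2 m.length (not_le.1 hcon)).1
  have h6 : m = l.map g := by
    apply List.ext_getElem?
    intro p
    rw [List.getElem?_map]
    by_cases hp : p < l.length
    · exact h4 p hp
    · rw [List.getElem?_eq_none (by omega), List.getElem?_eq_none (by omega)]
      rfl
  rw [← h6]
  exact hm2.symm

end SJ

open SJ in
theorem pf_SJ (D : Type) : T_SJ D := by
  intro o x y h hxy
  obtain ⟨h1, h2⟩ := hxy
  obtain ⟨H, hH⟩ : ∃ H : Vx ≃ Vx, H = (ie.trans h).trans ie.symm := ⟨_, rfl⟩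
  have hHv : ∀ v, H v = ie.symm (h (ie v)) := fun v => by rw [hH]; rfl
  have hc : ∀ u v, cV o y (H u) (H v) = cV o x u v := by
    intro u v
    have h3 := h1 (ie u) (ie v)
    simp only [code, Equiv.symm_apply_apply] at h3
    rw [hHv, hHv]
    exact h3
  have hu : ∀ v, uV o y (H v) = uV o x v := by
    intro v
    have h3 := h2 (ie v)
    simp only [code, Equiv.symm_apply_apply] at h3
    rw [hHv]
    exact h3
  have hc' : ∀ u v, cV o x (H.symm u) (H.symm v) = cV o y u v := by
    intro u v
    have h3 := hc (H.symm u) (H.symm v)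
    rw [Equiv.apply_symm_apply, Equiv.apply_symm_apply] at h3
    exact h3.symm
  have hu' : ∀ v, uV o x (H.symm v) = uV o y v := by
    intro v
    have h3 := hu (H.symm v)
    rw [Equiv.apply_symm_apply] at h3
    exact h3.symm
  have hg : ∀ i : ℕ, ∃ j : ℕ, H (Sum.inl i) = Sum.inl j := fun i =>
    of_zero (o := o) (y := y) (by rw [hu]; rfl)
  have hg' : ∀ i : ℕ, ∃ j : ℕ, H.symm (Sum.inl i) = Sum.inl j := fun i =>
    of_zero (o := o) (y := x) (by rw [hu']; rfl)
  choose g hg using hg
  choose g' hg' using hg'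
  have e1 : ∀ i, g' (g i) = i := by
    intro i
    have h3 := hg' (g i)
    rw [← hg, Equiv.symm_apply_apply] at h3
    exact (Sum.inl.inj h3).symm
  have e2 : ∀ i, g (g' i) = i := by
    intro i
    have h3 := hg (g' i)
    rw [← hg', Equiv.apply_symm_apply] at h3
    exact (Sum.inl.inj h3).symm
  refine ⟨⟨g, g', e1, e2⟩, fun l => ?_⟩
  change y (l.map g) = x l
  by_cases hl : x l = o
  · by_contra hne
    have h3 : y (l.map g) ≠ o := fun h4 => hne (h4.trans hl.symm)
    have h4 := key (o := o) (x := y) (y := x) H.symm g' hg' (fun u v => hc' u v) hu'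
      (l.map g) h3
    rw [List.map_map] at h4
    have h5 : l.map (g' ∘ g) = l := by
      conv_rhs => rw [← List.map_id l]
      exact List.map_congr_left fun a _ => e1 a
    rw [h5] at h4
    exact hne h4.symm
  · exact key H g hg hc hu l hl

end Pool.Agent.SG
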